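import Pool.Agent.UnitFrac.Final

set_option autoImplicit false

namespace Pool.Agent.Results.MP_02969a_nt.AboveHalf

/-- There are a constant `c > 1/2` and arbitrarily large `N` for which `{1, …, N}` has a subset `A`
with at least `c N` elements such that no `1/a`, `a ∈ A`, is a sum `1/b₁ + ⋯ + 1/b_k` with `k ≥ 1`
and pairwise distinct `b₁, …, b_k ∈ A` different from `a`. -/
theorem result :
    ∃ c : ℝ, 1 / 2 < c ∧ ∀ N₀ : ℕ, ∃ N : ℕ, N₀ ≤ N ∧ 1 ≤ N ∧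
      ∃ A : Finset ℕ, (∀ a ∈ A, 1 ≤ a ∧ a ≤ N) ∧ c * (N : ℝ) ≤ (A.card : ℝ) ∧
        ¬ ∃ (k a : ℕ) (b : Fin k → ℕ), 1 ≤ k ∧ a ∈ A ∧ (∀ i, b i ∈ A) ∧ (∀ i, b i ≠ a) ∧
          Function.Injective b ∧ (1 : ℚ) / (a : ℚ) = ∑ i, (1 : ℚ) / (b i : ℚ) := by
  obtain ⟨X, hX, hmain⟩ := Pool.Agent.UnitFrac.main_construction
  have hXr : (2 : ℝ) ≤ X := by exact_mod_cast hX
  have hpos : (0 : ℝ) < 1 / (16 * (X : ℝ)) := by positivity
  refine ⟨1 / 2 + 1 / (16 * (X : ℝ)), by linarith, fun N₀ => ?_⟩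
  obtain ⟨N, hN, hNpos, A, hAsub, hAdm, hAcard⟩ := hmain N₀
  refine ⟨N, hN, hNpos, A, fun a ha => Finset.mem_Icc.mp (hAsub ha), hAcard.le, ?_⟩
  rintro ⟨k, a, b, -, ha, hb, hne, hinj, hsum⟩
  refine hAdm a ha (Finset.univ.image b) ?_ ?_ ?_
  · intro x hx
    obtain ⟨i, -, rfl⟩ := Finset.mem_image.mp hx
    exact hb i
  · intro hx
    obtain ⟨i, -, hi⟩ := Finset.mem_image.mp hx
    exact hne i hi
  · rw [Finset.sum_image (fun i _ j _ h => hinj h)]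
    exact hsum.symm

end Pool.Agent.Results.MP_02969a_nt.AboveHalf
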